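import Pool.Agent.Y503.RB.Def3
import Pool.Agent.Y503.RB.Lin
import Pool.Agent.Y640.RB.Calc

/-!
# The point at infinity of an inner normal
-/

set_option autoImplicit false

namespace Pool.Agent.Y151.RB

open scoped ContDiff RealInnerProductSpace ENNReal Topology
open MeasureTheory Set Metric Pool.Agent.Y503.RB

/-- The form `exc` is positive definite at an inner normal. -/
theorem exc_pos {ψ : ℂ → E4} {z : ℂ} {n : E4} (hψ : ContDiffAt ℝ ∞ ψ z) (hI : Inner ψ n z)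
    (v : ℂ) (hv : v ≠ 0) : 0 < exc ψ n v v z := by
  obtain ⟨he, hd⟩ := hI
  unfold excDet at hd
  have hv' : ((v.re : ℂ) + (v.im : ℂ) * Complex.I) = v := Complex.re_add_im v
  have hq := exc_quad Pool.Agent.Y640.RB.sym ψ n v.re v.im z hψ
  rw [hv'] at hq
  rw [hq]
  set a := v.re
  set b := v.im
  set e := exc ψ n 1 1 z
  set f := exc ψ n 1 Complex.I z
  set g := exc ψ n Complex.I Complex.I z
  have hab : a ≠ 0 ∨ b ≠ 0 := by
    by_contra hcon
    push Not at hcon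
    apply hv
    rw [← hv']
    show ((a : ℂ) + (b : ℂ) * Complex.I) = 0
    rw [hcon.1, hcon.2]
    simp
  have h1 : e * (a ^ 2 * e + 2 * a * b * f + b ^ 2 * g) =
      (e * a + b * f) ^ 2 + b ^ 2 * (e * g - f ^ 2) := by ring
  have h2 : 0 < e * (a ^ 2 * e + 2 * a * b * f + b ^ 2 * g) := by
    rw [h1]
    by_cases hb : b = 0
    · have ha : a ≠ 0 := by
        rcases hab with h | h
        · exact h
        · exact absurd hb h
      rw [hb]
      have : 0 < (e * a) ^ 2 := by positivity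
      nlinarith
    · have : 0 < b ^ 2 * (e * g - f ^ 2) := mul_pos (by positivity) hd
      nlinarith [sq_nonneg (e * a + b * f)]
  exact (mul_pos_iff_of_pos_left he).1 h2

theorem inn : St_INN := by
  intro ψ z n hψ hp hn horth hI
  obtain ⟨p, hpdef⟩ : ∃ p, p = ψ z := ⟨_, rfl⟩
  rw [← hpdef] at hp
  obtain ⟨c, hc⟩ : ∃ c, c = ⟪p, n⟫ := ⟨_, rfl⟩
  have hc1 : 0 < 1 + c := by
    have h1 := abs_real_inner_le_norm p n
    rw [hn, mul_one, ← hc] at h1
    have := (abs_le.1 h1).1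
    linarith
  have hN : ‖p‖ ^ 2 < 1 := by
    have := norm_nonneg p
    nlinarith
  have hpn : 0 < ‖p‖ ^ 2 + 2 * c + 1 := by
    have h1 : ‖p + n‖ ^ 2 = ‖p‖ ^ 2 + 2 * c + 1 := by
      rw [norm_add_sq_real, hn, hc]
      ring
    rw [← h1]
    have h2 : p + n ≠ 0 := by
      intro h
      have : p = -n := eq_neg_of_add_eq_zero_left h
      rw [this, norm_neg, hn] at hp
      exact lt_irrefl _ hp
    have := norm_pos_iff.2 h2
    positivity
  obtain ⟨ρ, hρ⟩ : ∃ ρ, ρ = rad p n := ⟨_, rfl⟩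
  have hρ2 : 2 * ρ * (1 + c) = 1 - ‖p‖ ^ 2 := by
    rw [hρ]
    unfold rad
    rw [← hc]
    field_simp
  have hρ0 : 0 < ρ := by
    rw [hρ]
    unfold rad
    rw [← hc]
    exact div_pos (by linarith) (by linarith)
  have hρ1 : 0 < 1 - ρ := by
    have : ρ * (2 * (1 + c)) < 1 * (2 * (1 + c)) := by linarith
    have := lt_of_mul_lt_mul_right this (by linarith)
    linarith
  obtain ⟨t, ht⟩ : ∃ t, t = (1 - ρ) / ρ := ⟨_, rfl⟩
  have ht0 : 0 < t := by
    rw [ht]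
    exact div_pos hρ1 hρ0
  have h1t : 1 + t = ρ⁻¹ := by
    rw [ht]
    field_simp
    ring
  obtain ⟨ξ, hξ⟩ : ∃ ξ, ξ = (1 - ρ)⁻¹ • (p + ρ • n) := ⟨_, rfl⟩
  have hnorm : ‖p + ρ • n‖ ^ 2 = (1 - ρ) ^ 2 := by
    rw [norm_add_sq_real, inner_smul_right, ← hc, norm_smul, hn, Real.norm_eq_abs,
      abs_of_pos hρ0]
    linarith
  have hnorm' : ‖p + ρ • n‖ = 1 - ρ := by
    have := (sq_eq_sq₀ (norm_nonneg _) hρ1.le).1 hnorm
    exact this
  have hξ1 : ‖ξ‖ = 1 := by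
    rw [hξ, norm_smul, hnorm', norm_inv, Real.norm_eq_abs, abs_of_pos hρ1]
    exact inv_mul_cancel₀ hρ1.ne'
  have hpξ : ⟪p, ξ⟫ = (‖p‖ ^ 2 + ρ * c) / (1 - ρ) := by
    rw [hξ, inner_smul_right, inner_add_right, inner_smul_right, real_inner_self_eq_norm_sq, ← hc]
    ring
  have htn : t • ξ - (1 + t) • p = n := by
    rw [h1t, ht, hξ, smul_smul, smul_add, smul_smul]
    have e1 : (1 - ρ) / ρ * (1 - ρ)⁻¹ = ρ⁻¹ := by
      field_simp
    rw [e1, inv_mul_cancel₀ hρ0.ne', one_smul]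
    abel
  refine ⟨ξ, t, hξ1, ht0, ?_, ?_, ?_⟩
  · rw [← hpdef, norm_sub_sq_real, hpξ, hξ1, ht]
    field_simp
    linarith
  · intro v
    rw [← hpdef, htn]
    exact horth v
  · intro v hv
    rw [← hpdef, htn, h1t]
    have h := exc_pos hψ hI v hv
    unfold exc sff fff at h
    rw [← hpdef, ← hρ, real_inner_self_eq_norm_sq] at h
    rw [inv_mul_lt_iff₀ hρ0]
    linarith

end Pool.Agent.Y151.RB
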